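import Pool.Agent.K6.H64.RB.Seg

/-!
# Splittings over subgroups which meet some conjugate in a convex cocompact subgroup
-/

set_option autoImplicit false

open Metric Set Filter Topology
open Pool.Agent.TH60.FP Pool.Agent.TH60.FP.Strip Pool.Agent.Y34.HB Pool.Agent.Y34.EL
open Pool.Agent.T6.H46.RR Pool.Agent.T6.H46.RC Pool.Agent.T6.H67.TA Pool.Agent.K6.H64.RA

namespace Pool.Agent.K6.H64.RB

variable {X : Type} [MetricSpace X] {G : Type} [Group G] [MulAction G X]
  {V : Type} {T : SimpleGraph V} (hT : T.IsTree) [MulAction G V]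
  (hact : ∀ (g : G) (u v : V), T.Adj u v → T.Adj (g • u) (g • v))

omit [MulAction G X] in
lemma conj_fix {u s : G} {x : V} (h : s • u • x = u • x) : (u⁻¹ * s * u) • x = x := by
  rw [mul_smul, mul_smul, h, inv_smul_smul]

omit [MulAction G X] in
lemma conj_fix' {u s : G} {x : V} (h : s • u⁻¹ • x = u⁻¹ • x) : (u * s * u⁻¹) • x = x := by
  rw [mul_smul, mul_smul, h, smul_inv_smul]

include hT hact in
/-- coherent position, first case -/
lemma coh_A (hG : Geo X G) {a b : V} {g : G} {K : Subgroup G} {B : Set X} (hB : CC K B)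
    (hab : T.Adj a b) (hK : ∀ s : G, s ∈ K ↔ s ∈ Sg a b g) {p q : G}
    (hp : Fac T a b p) (hq : Fac T b a q) (hg : Coh T a b g)
    (hA : ∀ h : G, Lg T a b g h → Bd B h) (x : G) : Bd B x := by
  have := hG.proper
  have := hG.isom
  have key : ∀ z : G, Bd B (g * z * g⁻¹) := by
    refine all_of_fac hT hact hab hp hq (P := fun z => Bd B (g * z * g⁻¹)) ?_ ?_
    · intro y z hy hz
      have := hy.mul hB hz
      have e : g * y * g⁻¹ * (g * z * g⁻¹) = g * (y * z) * g⁻¹ := by group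
      rwa [e] at this
    · intro p' hp'
      have hi : Coh T b a g⁻¹ := (coh_inv hT hact).2 hg
      have hq' : Fac T b a (g⁻¹ * q) := coh_mul_fac hT hact hab.symm hi hq
      have hc : Coh T a b (p' * (g⁻¹ * q)) := fac_mul hT hact hab hp' hq'
      refine Bd.sub hG hB (hA (g * (p' * (g⁻¹ * q))) ⟨coh_mul hT hact hab hg hc, ?_⟩) ?_
      · intro s s1 s2 s3 s4
        exact (mem_Sg.1 (Sg_coh_le hT hact hab hg (Or.inl hc) (mem_Sg.2 ⟨⟨s1, s2⟩, s3, s4⟩))).2
      · intro s hs hs'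
        rw [hK, mem_Sg] at hs hs'
        obtain ⟨⟨a1, a2⟩, a3, a4⟩ := hs
        obtain ⟨⟨b1, b2⟩, -, -⟩ := hs'
        rw [mul_smul, mul_smul, inv_smul_eq_iff] at b1 b2
        rw [hK]
        set s₁ := g⁻¹ * s * g with hs₁
        have c1 : s₁ • a = a := conj_fix a3
        have c2 : s₁ • b = b := conj_fix a4
        have c3 : s₁ • (p' * (g⁻¹ * q)) • a = (p' * (g⁻¹ * q)) • a := by
          rw [mul_smul g] at b1
          rw [hs₁, mul_smul, mul_smul, b1, inv_smul_smul]
        have c4 : s₁ • (p' * (g⁻¹ * q)) • b = (p' * (g⁻¹ * q)) • b := by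
          rw [mul_smul g] at b2
          rw [hs₁, mul_smul, mul_smul, b2, inv_smul_smul]
        obtain ⟨d1, d2⟩ := fix_mid hT hact hab hp' hq' c1 c2 c3 c4
        set s₂ := p'⁻¹ * s₁ * p' with hs₂
        have f1 : s₂ • a = a := conj_fix d1
        have f2 : s₂ • b = b := conj_fix d2
        have f3 : s₂ • g⁻¹ • q • b = g⁻¹ • q • b := by
          rw [mul_smul p', mul_smul g⁻¹] at c4
          rw [hs₂, mul_smul, mul_smul, c4, inv_smul_smul]
        obtain ⟨g1, g2⟩ := coh_fix hT hact hab.symm hi (y := q • b)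
          (hq.vals hT hact hab.symm).2.2.2 f2 f3
        have e : (g * p' * g⁻¹)⁻¹ * s * (g * p' * g⁻¹) = g * s₂ * g⁻¹ := by
          rw [hs₂, hs₁]; group
        rw [e, mem_Sg]
        refine ⟨⟨conj_fix' g2, conj_fix' g1⟩, ?_, ?_⟩
        · rw [mul_smul, mul_smul, inv_smul_smul, f1]
        · rw [mul_smul, mul_smul, inv_smul_smul, f2]
  have := key (g⁻¹ * x * g)
  have e : g * (g⁻¹ * x * g) * g⁻¹ = x := by group
  rwa [e] at this

include hT hact in
/-- coherent position, second case -/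
lemma coh_B (hG : Geo X G) {a b : V} {g : G} {K : Subgroup G} {B : Set X} (hB : CC K B)
    (hab : T.Adj a b) (hK : ∀ s : G, s ∈ K ↔ s ∈ Sg a b g) {p q : G}
    (hp : Fac T a b p) (hq : Fac T b a q) (hg : Coh T a b g)
    (hA : ∀ h : G, Lg T a b g h → Bd B h⁻¹) (x : G) : Bd B x := by
  have := hG.proper
  have := hG.isom
  refine all_of_fac hT hact hab.symm hq hp (P := fun z => Bd B z) (fun y z hy hz => hy.mul hB hz)
    (fun q' hq' => ?_) x
  have hgp : Fac T a b (g * p) := coh_mul_fac hT hact hab hg hp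
  have hc' : Coh T b a (q' * (g * p)) := fac_mul hT hact hab.symm hq' hgp
  have hc : Coh T a b (q' * (g * p))⁻¹ := (coh_inv hT hact).2 hc'
  refine Bd.sub hG hB (hA (g * (q' * (g * p))⁻¹) ⟨coh_mul hT hact hab hg hc, ?_⟩) ?_
  · intro s s1 s2 s3 s4
    exact (mem_Sg.1 (Sg_coh_le hT hact hab hg (Or.inl hc) (mem_Sg.2 ⟨⟨s1, s2⟩, s3, s4⟩))).2
  · intro s hs hs'
    rw [hK, mem_Sg] at hs hs'
    obtain ⟨⟨a1, a2⟩, a3, a4⟩ := hs
    obtain ⟨-, b1, b2⟩ := hs'
    rw [inv_inv] at b1 b2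
    have c1 : s • (q' * (g * p)) • a = (q' * (g * p)) • a := by
      have e : ∀ y : V, (g * (q' * (g * p))⁻¹ * s * (g * (q' * (g * p))⁻¹)⁻¹) • g • y =
          (g * (q' * (g * p))⁻¹) • s • (q' * (g * p)) • y := by
        intro y
        rw [← mul_smul, ← mul_smul, ← mul_smul]
        congr 1
        group
      rw [e, ← eq_inv_smul_iff] at b1
      rw [b1, ← mul_smul]
      congr 1
      group
    have c2 : s • (q' * (g * p)) • b = (q' * (g * p)) • b := by
      have e : ∀ y : V, (g * (q' * (g * p))⁻¹ * s * (g * (q' * (g * p))⁻¹)⁻¹) • g • y =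
          (g * (q' * (g * p))⁻¹) • s • (q' * (g * p)) • y := by
        intro y
        rw [← mul_smul, ← mul_smul, ← mul_smul]
        congr 1
        group
      rw [e, ← eq_inv_smul_iff] at b2
      rw [b2, ← mul_smul]
      congr 1
      group
    obtain ⟨d1, d2⟩ := fix_mid hT hact hab.symm hq' hgp a2 a1 c2 c1
    rw [hK]
    have f1 : (q'⁻¹ * s * q') • a = a := conj_fix d2
    have f2 : (q'⁻¹ * s * q') • b = b := conj_fix d1
    have f3 : (q'⁻¹ * s * q') • g • p • a = g • p • a := by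
      rw [mul_smul q', mul_smul g] at c1
      rw [mul_smul, mul_smul, c1, inv_smul_smul]
    obtain ⟨g1, g2⟩ := coh_fix hT hact hab hg (y := p • a)
      (hp.vals hT hact hab).2.2.2 f1 f3
    exact mem_Sg.2 ⟨⟨f1, f2⟩, g1, g2⟩

include hT hact in
/-- facing position, first case -/
lemma fac_A (hG : Geo X G) {a b : V} {g : G} {K : Subgroup G} {B : Set X} (hB : CC K B)
    (hab : T.Adj a b) (hK : ∀ s : G, s ∈ K ↔ s ∈ Sg a b g) {q : G}
    (hq : Fac T b a q) (hg : Fac T a b g)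
    (hA : ∀ h : G, Lg T a b g h → Bd B h) (x : G) : Bd B x := by
  have := hG.proper
  have := hG.isom
  have key : ∀ z : G, Bd B (g * z * g⁻¹) := by
    refine all_of_fac hT hact hab.symm hq hg (P := fun z => Bd B (g * z * g⁻¹)) ?_ ?_
    · intro y z hy hz
      have := hy.mul hB hz
      have e : g * y * g⁻¹ * (g * z * g⁻¹) = g * (y * z) * g⁻¹ := by group
      rwa [e] at this
    · intro y hy
      have hgi : Fac T a b g⁻¹ := hg.inv hT hact
      have h1 : Coh T a b (g⁻¹ * q) := fac_mul hT hact hab hgi hq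
      have h2 : Fac T b a (y * (g⁻¹ * q)) := fac_mul_coh hT hact hab hy h1
      refine Bd.sub hG hB (hA (g * (y * (g⁻¹ * q))) ⟨fac_mul hT hact hab hg h2, ?_⟩) ?_
      · intro s s1 s2 s3 s4
        exact fix_mid hT hact hab hg h2 s1 s2 s3 s4
      · intro s hs hs'
        rw [hK, mem_Sg] at hs hs'
        obtain ⟨⟨a1, a2⟩, a3, a4⟩ := hs
        obtain ⟨⟨b1, b2⟩, -, -⟩ := hs'
        rw [mul_smul, mul_smul, inv_smul_eq_iff] at b1 b2
        rw [hK]
        set s₁ := g⁻¹ * s * g with hs₁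
        have c1 : s₁ • a = a := conj_fix a3
        have c2 : s₁ • b = b := conj_fix a4
        have c3 : s₁ • (y * (g⁻¹ * q)) • a = (y * (g⁻¹ * q)) • a := by
          rw [mul_smul g] at b1
          rw [hs₁, mul_smul, mul_smul, b1, inv_smul_smul]
        have c4 : s₁ • (y * (g⁻¹ * q)) • b = (y * (g⁻¹ * q)) • b := by
          rw [mul_smul g] at b2
          rw [hs₁, mul_smul, mul_smul, b2, inv_smul_smul]
        obtain ⟨d1, d2⟩ := fac_coh_fix hT hact hab hy h1 c2 c4
        set s₂ := y⁻¹ * s₁ * y with hs₂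
        have f1 : s₂ • a = a := conj_fix d1
        have f2 : s₂ • b = b := conj_fix d2
        have f3 : s₂ • (g⁻¹ * q) • a = (g⁻¹ * q) • a := by
          rw [mul_smul y] at c3
          rw [hs₂, mul_smul, mul_smul, c3, inv_smul_smul]
        have f4 : s₂ • (g⁻¹ * q) • b = (g⁻¹ * q) • b := by
          rw [mul_smul y] at c4
          rw [hs₂, mul_smul, mul_smul, c4, inv_smul_smul]
        obtain ⟨g1, g2⟩ := fix_mid hT hact hab hgi hq f1 f2 f3 f4
        have e : (g * y * g⁻¹)⁻¹ * s * (g * y * g⁻¹) = g * s₂ * g⁻¹ := by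
          rw [hs₂, hs₁]; group
        rw [e, mem_Sg]
        refine ⟨⟨conj_fix' g1, conj_fix' g2⟩, ?_, ?_⟩
        · rw [mul_smul, mul_smul, inv_smul_smul, f1]
        · rw [mul_smul, mul_smul, inv_smul_smul, f2]
  have := key (g⁻¹ * x * g)
  have e : g * (g⁻¹ * x * g) * g⁻¹ = x := by group
  rwa [e] at this

include hT hact in
/-- facing position, second case -/
lemma fac_B (hG : Geo X G) {a b : V} {g : G} {K : Subgroup G} {B : Set X} (hB : CC K B)
    (hab : T.Adj a b) (hK : ∀ s : G, s ∈ K ↔ s ∈ Sg a b g) {q : G}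
    (hq : Fac T b a q) (hg : Fac T a b g)
    (hA : ∀ h : G, Lg T a b g h → Bd B h⁻¹) (x : G) : Bd B x := by
  have := hG.proper
  have := hG.isom
  refine all_of_fac hT hact hab.symm hq hg (P := fun z => Bd B z) (fun y z hy hz => hy.mul hB hz)
    (fun y hy => ?_) x
  -- `w = y g q g⁻¹` is the inverse of `g q⁻¹ (y g)⁻¹`
  have hgi : Fac T a b g⁻¹ := hg.inv hT hact
  have hgq : Coh T a b (g * q) := fac_mul hT hact hab hg hq
  have h1 : Fac T b a (y * (g * q)) := fac_mul_coh hT hact hab hy hgq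
  have h2 : Fac T b a (y * (g * q))⁻¹ := h1.inv hT hact
  refine Bd.sub hG hB (hA (g * (y * (g * q))⁻¹) ⟨fac_mul hT hact hab hg h2, ?_⟩) ?_
  · intro s s1 s2 s3 s4
    exact fix_mid hT hact hab hg h2 s1 s2 s3 s4
  · intro s hs hs'
    rw [hK, mem_Sg] at hs hs'
    obtain ⟨⟨a1, a2⟩, a3, a4⟩ := hs
    obtain ⟨-, b1, b2⟩ := hs'
    rw [inv_inv] at b1 b2
    have e : ∀ z : V, (g * (y * (g * q))⁻¹ * s * (g * (y * (g * q))⁻¹)⁻¹) • g • z =
        (g * (y * (g * q))⁻¹) • s • (y * (g * q)) • z := by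
      intro z
      rw [← mul_smul, ← mul_smul, ← mul_smul]
      congr 1
      group
    have c1 : s • (y * (g * q)) • a = (y * (g * q)) • a := by
      rw [e, ← eq_inv_smul_iff] at b1
      rw [b1, ← mul_smul]
      congr 1
      group
    have c2 : s • (y * (g * q)) • b = (y * (g * q)) • b := by
      rw [e, ← eq_inv_smul_iff] at b2
      rw [b2, ← mul_smul]
      congr 1
      group
    obtain ⟨d1, d2⟩ := fac_coh_fix hT hact hab hy hgq a2 c2
    rw [hK]
    have f1 : (y⁻¹ * s * y) • a = a := conj_fix d1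
    have f2 : (y⁻¹ * s * y) • b = b := conj_fix d2
    have f3 : (y⁻¹ * s * y) • (g * q) • a = (g * q) • a := by
      rw [mul_smul y] at c1
      rw [mul_smul, mul_smul, c1, inv_smul_smul]
    have f4 : (y⁻¹ * s * y) • (g * q) • b = (g * q) • b := by
      rw [mul_smul y] at c2
      rw [mul_smul, mul_smul, c2, inv_smul_smul]
    exact mem_Sg.2 ⟨⟨f1, f2⟩, fix_mid hT hact hab hg hq f1 f2 f3 f4⟩

omit [MulAction G X] in
lemma Sg_swap {a b : V} {g s : G} : s ∈ Sg a b g ↔ s ∈ Sg b a g := by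
  rw [mem_Sg, mem_Sg]
  exact ⟨fun h => ⟨⟨h.1.2, h.1.1⟩, h.2.2, h.2.1⟩, fun h => ⟨⟨h.1.2, h.1.1⟩, h.2.2, h.2.1⟩⟩

include hT hact in
/-- **Main alternative.** -/
theorem bd_or (hG : Geo X G) {a b : V} {g : G} {K : Subgroup G} {B : Set X} (hB : CC K B)
    (k : K) {τ : ℝ} (hτ : 0 < τ) {c : ℝ → B} (hk : @Axis B _ K _ (bact hB) k τ c)
    (hHP : HP c = ∅) (hab : T.Adj a b) (hK : ∀ s : G, s ∈ K ↔ s ∈ Sg a b g) {p q : G}
    (hp : Fac T a b p) (hq : Fac T b a q) : (∃ g : G, RankOne X g) ∨ ∀ x : G, Bd B x := by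
  by_cases hno : ∃ g : G, RankOne X g
  · exact Or.inl hno
  have hno' : ∀ g : G, ¬ RankOne X g := by simpa using hno
  rcases edge_cases hT hab (hact g a b hab) with h | h | h | h | h | h
  · refine rank_one_or hT hact hG hB k hτ hk hHP hab (fun s => ?_) hp hq
    rw [hK, mem_Sg, h.1, h.2]
    exact ⟨fun h => h.1, fun h => ⟨h, h⟩⟩
  · refine rank_one_or hT hact hG hB k hτ hk hHP hab (fun s => ?_) hp hq
    rw [hK, mem_Sg, h.1, h.2]
    exact ⟨fun h => h.1, fun h => ⟨h, h.2, h.1⟩⟩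
  · right
    by_cases hA : ∀ h : G, Lg T a b g h → Bd B h
    · exact coh_A hT hact hG hB hab hK hp hq h hA
    · push Not at hA
      obtain ⟨v, hv, hv'⟩ := hA
      exact coh_B hT hact hG hB hab hK hp hq h fun u hu =>
        (step' hT hact hG hB k hτ hk hHP hab hK hno' hu hv).resolve_right hv'
  · right
    have hK' : ∀ s : G, s ∈ K ↔ s ∈ Sg b a g := fun s => (hK s).trans Sg_swap
    by_cases hA : ∀ h : G, Lg T b a g h → Bd B h
    · exact coh_A hT hact hG hB hab.symm hK' hq hp h hA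
    · push Not at hA
      obtain ⟨v, hv, hv'⟩ := hA
      exact coh_B hT hact hG hB hab.symm hK' hq hp h fun u hu =>
        (step' hT hact hG hB k hτ hk hHP hab.symm hK' hno' hu hv).resolve_right hv'
  · right
    by_cases hA : ∀ h : G, Lg T a b g h → Bd B h
    · exact fac_A hT hact hG hB hab hK hq h hA
    · push Not at hA
      obtain ⟨v, hv, hv'⟩ := hA
      exact fac_B hT hact hG hB hab hK hq h fun u hu =>
        (step' hT hact hG hB k hτ hk hHP hab hK hno' hu hv).resolve_right hv'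
  · right
    have hK' : ∀ s : G, s ∈ K ↔ s ∈ Sg b a g := fun s => (hK s).trans Sg_swap
    by_cases hA : ∀ h : G, Lg T b a g h → Bd B h
    · exact fac_A hT hact hG hB hab.symm hK' hp h hA
    · push Not at hA
      obtain ⟨v, hv, hv'⟩ := hA
      exact fac_B hT hact hG hB hab.symm hK' hp h fun u hu =>
        (step' hT hact hG hB k hτ hk hHP hab.symm hK' hno' hu hv).resolve_right hv'

include hT hact in
/-- **Main theorem** -/
theorem main (hG : Geo X G) (hGC : GC X) {a b : V} {g : G} {K : Subgroup G} {B : Set X}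
    (hB : CC K B) (k : K) {τ : ℝ} (hτ : 0 < τ) {c : ℝ → B}
    (hk : @Axis B _ K _ (bact hB) k τ c) (hHP : HP c = ∅)
    (hab : T.Adj a b) (hK : ∀ s : G, s ∈ K ↔ s ∈ Sg a b g) {p q : G}
    (hp : Fac T a b p) (hq : Fac T b a q) : (∃ g : G, RankOne X g) ∨
      ∃ B₀ : Set X, B₀ ⊆ B ∧ CC K B₀ ∧ Nontrivial B₀ ∧
      ∃ (Z : Type) (_ : MetricSpace Z) (_ : Nontrivial Z) (e : X ≃ Z × B₀),
      ∀ x x' : X, dist x x' ^ 2 = dist (e x).1 (e x').1 ^ 2 + dist (e x).2 (e x').2 ^ 2 := by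
  have := hG.isom
  rcases bd_or hT hact hG hB k hτ hk hHP hab hK hp hq with h | h
  · exact Or.inl h
  · right
    obtain ⟨B₀, hsub, h₀, h1 | h1⟩ := split_of_bd hG hGC hB h
    · exfalso
      obtain ⟨b1, b2, b3, b4, C, b5, b6⟩ := h₀
      have h₀' : CC (MulAction.stabilizer G a ⊓ MulAction.stabilizer G b) B₀ :=
        ⟨b1, b2, b3, fun g _ x _ => h1 _, C, b5, fun x hx => by
          obtain ⟨s, hs, hs'⟩ := b6 x hx
          refine ⟨s, ?_, hs'⟩
          rw [hK, mem_Sg] at hs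
          exact ⟨MulAction.mem_stabilizer_iff.2 hs.1.1, MulAction.mem_stabilizer_iff.2 hs.1.2⟩⟩
      refine not_cocompact hT hact hG h₀' hab (fun s => ?_) hp hq h1
      rw [Subgroup.mem_inf, MulAction.mem_stabilizer_iff, MulAction.mem_stabilizer_iff]
    · exact ⟨B₀, hsub, h₀, nontrivial_of_axis hB h₀ hsub k hτ hk, h1⟩

end Pool.Agent.K6.H64.RB
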