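import Pool.Agent.K6.H64.RA.Tree
import Pool.Agent.T6.H46.RC.Fin

/-!
# Stabilisers of segments which are convex cocompact and contain rank one isometries
-/

set_option autoImplicit false

open Metric Set Filter Topology
open Pool.Agent.TH60.FP Pool.Agent.TH60.FP.Strip Pool.Agent.Y34.HB Pool.Agent.Y34.EL
open Pool.Agent.T6.H46.RR Pool.Agent.T6.H46.RC Pool.Agent.T6.H67.TA Pool.Agent.K6.H64.RA

namespace Pool.Agent.K6.H64.RB

section tree

variable {V : Type} {T : SimpleGraph V} (hT : T.IsTree) {G : Type} [Group G] [MulAction G V]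
  (hact : ∀ (g : G) (u v : V), T.Adj u v → T.Adj (g • u) (g • v))

include hT hact in
/-- what fixes two points on different sides of an edge fixes the edge -/
lemma edge_fix {x y w u : V} (hxy : D T x y = 1) (h1 : D T w y = D T w x + 1)
    (h2 : D T x u = D T y u + 1) {s : G} (hw : s • w = w) (hu : s • u = u) :
    s • x = x ∧ s • y = y := by
  have e1 := sep_edge hT hxy h1 h2
  constructor
  · refine fix_between hT hact (a := w) (b := u) ?_ hw hu
    unfold P
    rw [D_comm x w]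
    omega
  · refine fix_between hT hact (a := w) (b := u) ?_ hw hu
    unfold P
    rw [D_comm y w]
    omega

/-- `h` is coherent, and what fixes `e` and `h e` fixes `g e` -/
def Lg (T : SimpleGraph V) (a b : V) (g h : G) : Prop := Coh T a b h ∧
  ∀ s : G, s • a = a → s • b = b → s • h • a = h • a → s • h • b = h • b →
    s • g • a = g • a ∧ s • g • b = g • b

include hT hact in
/-- what fixes the ends of a prolongation of a coherent segment fixes the middle edge -/
lemma coh_between {a b : V} (hab : T.Adj a b) {x z : G} (hx : Coh T a b x)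
    (hz : Coh T a b (x⁻¹ * z)) {s : G} (ha : s • a = a) (hs : s • z • a = z • a) :
    s • x • a = x • a ∧ s • x • b = x • b := by
  refine coh_fix hT hact hab hx (y := (x⁻¹ * z) • a) (hz.vals hT hact hab).2.1 ha ?_
  rw [mul_smul, smul_inv_smul]
  exact hs

include hT hact in
lemma coh_fix_coh {a b : V} {g h : G} (ga : g • a = a) (gb : g • b = b)
    (hh : Coh T a b h) : Coh T a b (g * h) := by
  have e : ∀ x y : V, g • x = x → D T x ((g * h) • y) = D T x (h • y) := by
    intro x y hx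
    have := D_smul hT hact g x (h • y)
    rw [hx] at this
    rw [mul_smul, this]
  unfold Coh
  rw [e a b ga, e b a gb]; exact hh

include hT hact in
/-- facing (the other way) times coherent is facing -/
lemma fac_mul_coh {a b : V} (hab : T.Adj a b) {q c : G} (hq : Fac T b a q) (hc : Coh T a b c) :
    Fac T b a (q * c) := by
  have h1 : Coh T b a c⁻¹ := (coh_inv hT hact).2 hc
  have h2 := (coh_mul_fac hT hact hab.symm h1 (hq.inv hT hact)).inv hT hact
  rwa [mul_inv_rev, inv_inv, inv_inv] at h2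

include hT hact in
/-- what fixes `e` and `q c e` fixes `q e` -/
lemma fac_coh_fix {a b : V} (hab : T.Adj a b) {q c : G} (hq : Fac T b a q) (hc : Coh T a b c)
    {s : G} (hb : s • b = b)
    (hb' : s • (q * c) • b = (q * c) • b) : s • q • a = q • a ∧ s • q • b = q • b := by
  obtain ⟨q1, q2, q3, q4⟩ := hq.vals hT hact hab.symm
  obtain ⟨c1, c2, c3, c4⟩ := hc.vals hT hact hab
  have hd : D T (q • a) (q • b) = 1 := by
    rw [D_smul hT hact]; exact adj_D hab
  have s' : ∀ x y : V, D T (q • x) ((q * c) • y) = D T x (c • y) := by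
    intro x y; rw [mul_smul, D_smul hT hact]
  exact edge_fix hT hact hd (w := b) (u := (q * c) • b) q1 (by rw [s', s']; exact c4) hb hb'

include hT hact in
/-- the elements which face an edge generate everything -/
lemma all_of_fac {a b : V} (hab : T.Adj a b) {p q : G} (hp : Fac T a b p) (hq : Fac T b a q)
    {P : G → Prop} (hmul : ∀ g h, P g → P h → P (g * h)) (h : ∀ p', Fac T a b p' → P p') (g : G) :
    P g := by
  have n2 : ∀ c : G, Coh T a b c → P c ∧ P c⁻¹ := by
    intro c hc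
    have h1 := coh_mul_fac hT hact hab hc hp
    refine ⟨?_, ?_⟩
    · have h2 := hmul _ _ (h _ h1) (h _ (hp.inv hT hact))
      rwa [mul_inv_cancel_right] at h2
    · have h2 := hmul _ _ (h _ hp) (h _ (h1.inv hT hact))
      rwa [mul_inv_rev, mul_inv_cancel_left] at h2
  rcases edge_cases hT hab (hact g a b hab) with h' | h' | h' | h' | h' | h'
  · have h1 := coh_fix_coh hT hact h'.1 h'.2 (fac_mul hT hact hab hp hq)
    have h2 := hmul _ _ (n2 _ h1).1 (n2 _ (fac_mul hT hact hab hp hq)).2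
    rwa [mul_inv_cancel_right] at h2
  · have h1 : Fac T a b ((p * q) * g) := by
      unfold Fac
      rw [mul_smul (p * q) g a, mul_smul (p * q) g b, h'.1, h'.2]
      exact fac_mul hT hact hab hp hq
    have h2 := hmul _ _ (n2 _ (fac_mul hT hact hab hp hq)).2 (h _ h1)
    rwa [inv_mul_cancel_left] at h2
  · exact (n2 g h').1
  · have h1 : Coh T a b g⁻¹ := (coh_inv hT hact).2 h'
    have h2 := (n2 _ h1).2
    rwa [inv_inv] at h2
  · exact h g h'
  · have h1 := (n2 _ (fac_mul hT hact hab hp (q := g) h')).1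
    have h2 := hmul _ _ (h _ (hp.inv hT hact)) h1
    rwa [inv_mul_cancel_left] at h2

end tree

variable {X : Type} [MetricSpace X] {G : Type} [Group G] [MulAction G X]
  {V : Type} {T : SimpleGraph V} (hT : T.IsTree) [MulAction G V]
  (hact : ∀ (g : G) (u v : V), T.Adj u v → T.Adj (g • u) (g • v))

include hT hact in
lemma step' (hG : Geo X G) {a b : V} {g : G} {K : Subgroup G} {B : Set X} (hB : CC K B)
    (k : K) {τ : ℝ}
    (hτ : 0 < τ) {c : ℝ → B} (hk : @Axis B _ K _ (bact hB) k τ c) (hHP : HP c = ∅)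
    (hab : T.Adj a b) (hK : ∀ s : G, s ∈ K ↔ s ∈ Sg a b g)
    (hno : ∀ g : G, ¬ RankOne X g) {u v : G} (hu : Lg T a b g u) (hv : Lg T a b g v) :
    Bd B u⁻¹ ∨ Bd B v := by
  have := hG.proper
  have := hG.isom
  let _ := bact hB
  have hGB := geo_sub hG hB
  have := hGB.isom
  have := hGB.proper
  by_cases f1 : ∀ s : K, ∃ l : ℕ, 0 < l ∧ (s * k * s⁻¹) ^ l ∈ IK K u⁻¹
  · exact Or.inl (full hG hB k hτ hk hHP _ f1)
  by_cases f2 : ∀ s : K, ∃ l : ℕ, 0 < l ∧ (s * k * s⁻¹) ^ l ∈ IK K v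
  · exact Or.inr (full hG hB k hτ hk hHP _ f2)
  exfalso
  push Not at f1 f2
  obtain ⟨s₁, hs₁⟩ := f1
  obtain ⟨s₂, hs₂⟩ := f2
  obtain ⟨R, D, hP⟩ := pass_of_axis hGB.cn hτ hk hHP
  obtain ⟨d, hd⟩ := dyn hGB (axis_conj hk s₂) (hP.smul s₂) (axis_conj hk s₁) (hP.smul s₁)
    (A₁ := IK K u⁻¹) (A₂ := IK K v) (qc_IK hG hB u⁻¹) (qc_IK hG hB v) hs₂ hs₁
  have hdK := mem_Sg.1 ((hK _).1 d.2)
  have hdv : Coh T a b ((d : G) * v) := coh_fix_coh hT hact hdK.1.1 hdK.1.2 hv.1
  have hF : Coh T a b (u * (d * v)) := coh_mul hT hact hab hu.1 hdv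
  set F := u * ((d : G) * v) with hFdef
  obtain ⟨hax, -⟩ := coh_onAxis hT hact hab hF
  obtain ⟨o, ho⟩ := hB.ne
  refine hno _ (rank_one_of_finite hT hact hG o hax 2 ?_)
  refine (hd.image (fun s : K => u * (s : G) * u⁻¹)).subset ?_
  rintro s ⟨e1, e2⟩
  have hFF : Coh T a b (F ^ 2) := by rw [pow_two]; exact coh_mul hT hact hab hF hF
  -- the edges fixed by `s`
  have e3 : s • b = b := by
    obtain ⟨z1, z2, z3, z4⟩ := hFF.vals hT hact hab
    exact (edge_fix hT hact (adj_D hab) (w := a) (u := F ^ 2 • a) (by rw [D_self, adj_D hab]; rfl)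
      z2 e1 e2).2
  obtain ⟨u1, u2⟩ := coh_between hT hact hab hu.1 (z := F ^ 2) (by
    have e : u⁻¹ * F ^ 2 = (d * v) * F := by rw [pow_two, hFdef]; group
    rw [e]; exact coh_mul hT hact hab hdv hF) e1 e2
  obtain ⟨F1, F2⟩ := coh_between hT hact hab hF (z := F ^ 2) (by
    have e : F⁻¹ * F ^ 2 = F := by rw [pow_two]; group
    rw [e]; exact hF) e1 e2
  obtain ⟨G1, G2⟩ := coh_between hT hact hab (coh_mul hT hact hab hF hu.1) (z := F ^ 2) (by
    have e : (F * u)⁻¹ * F ^ 2 = d * v := by rw [pow_two, hFdef]; group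
    rw [e]; exact hdv) e1 e2
  have hsK : s ∈ K := by
    obtain ⟨g1, g2⟩ := hu.2 s e1 e3 u1 u2
    exact (hK _).2 (mem_Sg.2 ⟨⟨e1, e3⟩, g1, g2⟩)
  -- the conjugate by `u`
  set s' := u⁻¹ * s * u with hs'
  have a1 : s' • a = a := by rw [hs', mul_smul, mul_smul, u1, inv_smul_smul]
  have a2 : s' • b = b := by rw [hs', mul_smul, mul_smul, u2, inv_smul_smul]
  have a3 : ∀ x : V, s • F • x = F • x → s' • ((d : G) * v) • x = ((d : G) * v) • x := by
    intro x hx
    rw [hFdef, mul_smul u] at hx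
    rw [hs', mul_smul, mul_smul, hx, inv_smul_smul]
  have b1 : ((d : G)⁻¹ * s' * d) • a = a := by
    rw [mul_smul, mul_smul, hdK.1.1, a1, inv_smul_eq_iff, hdK.1.1]
  have b2 : ((d : G)⁻¹ * s' * d) • b = b := by
    rw [mul_smul, mul_smul, hdK.1.2, a2, inv_smul_eq_iff, hdK.1.2]
  have b3 : ∀ x : V, s • F • x = F • x → ((d : G)⁻¹ * s' * d) • v • x = v • x := by
    intro x hx
    have := a3 x hx
    rw [mul_smul (d : G) v] at this
    rw [mul_smul, mul_smul, this, inv_smul_smul]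
  obtain ⟨c1, c2⟩ := hv.2 _ b1 b2 (b3 a F1) (b3 b F2)
  have c3 : ∀ x : V, (d : G) • g • x = g • x →
      ((d : G)⁻¹ * s' * d) • g • x = g • x → s' • g • x = g • x := by
    intro x h1 h2
    rw [mul_smul, mul_smul, h1, inv_smul_eq_iff, h1] at h2
    exact h2
  have hs'K : s' ∈ K := (hK _).2 (mem_Sg.2 ⟨⟨a1, a2⟩, c3 a hdK.2.1 c1, c3 b hdK.2.2 c2⟩)
  -- the conjugate by `F`
  have f1 : ∀ x : V, s • F • x = F • x → (F⁻¹ * s * F) • x = x := by
    intro x hx
    rw [mul_smul, mul_smul, hx, inv_smul_smul]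
  have f2 : ∀ x : V, s • (F * u) • x = (F * u) • x → (F⁻¹ * s * F) • u • x = u • x := by
    intro x hx
    rw [mul_smul F] at hx
    exact f1 _ hx
  have hFK : F⁻¹ * s * F ∈ K := by
    obtain ⟨g1, g2⟩ := hu.2 _ (f1 a F1) (f1 b F2) (f2 a G1) (f2 b G2)
    exact (hK _).2 (mem_Sg.2 ⟨⟨f1 a F1, f1 b F2⟩, g1, g2⟩)
  refine ⟨⟨s', hs'K⟩, ⟨?_, ?_⟩, ?_⟩
  · rw [mem_IK]
    show (u⁻¹)⁻¹ * s' * u⁻¹ ∈ K
    have e : (u⁻¹)⁻¹ * s' * u⁻¹ = s := by rw [hs']; group
    rw [e]; exact hsK
  · rw [mem_IK]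
    show v⁻¹ * ((d : G)⁻¹ * s' * d) * v ∈ K
    have e : v⁻¹ * ((d : G)⁻¹ * s' * d) * v = F⁻¹ * s * F := by rw [hs', hFdef]; group
    rw [e]; exact hFK
  · show u * s' * u⁻¹ = s
    rw [hs']; group

end Pool.Agent.K6.H64.RB
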